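import Pool.Agent.Helper20.Mono.GoalsS
import Pool.Agent.Helper57.Mono.NvolSum

/-! # Packet S4 (1207): the normalised volume of the projection of a cell -/

namespace Mono

open Finset Filter Topology Pointwise

variable {n : ℕ}

namespace S4

open V2

/-- the projection along `ℝ^K` -/
def pr (K : Finset (Fin n)) (v : Fin n → ℤ) : Fin n → ℤ := fun i => if i ∈ K then 0 else v i

theorem projS_eq (K : Finset (Fin n)) (A : Finset (Fin n → ℤ)) : projS K A = A.image (pr K) := rfl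

theorem pr_sub (K : Finset (Fin n)) (u v : Fin n → ℤ) : pr K (u - v) = pr K u - pr K v := by
  funext i
  simp only [pr, Pi.sub_apply]
  split_ifs <;> simp

theorem toR_pr_mem {K : Finset (Fin n)} (v : Fin n → ℤ) {i : Fin n} (hi : i ∈ K) :
    toR (pr K v) i = 0 := by simp [pr, hi]

theorem toR_pr_notMem {K : Finset (Fin n)} (v : Fin n → ℤ) {i : Fin n} (hi : i ∉ K) :
    toR (pr K v) i = (v i : ℝ) := by simp [pr, hi]

/-- Finiteness. -/
theorem finite_hull (φ : Finset (Fin n → ℤ)) (k : ℕ) :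
    {x : Fin n → ℤ | toR x ∈ (k : ℝ) • convexHull ℝ (toR '' (φ : Set (Fin n → ℤ)))}.Finite := by
  classical
  obtain ⟨M, hM⟩ : ∃ M : ℕ, ∀ v ∈ φ, ∀ i, |v i| ≤ (M : ℤ) := by
    refine ⟨∑ v ∈ φ, ∑ i, (v i).natAbs, fun v hv i => ?_⟩
    have h1 : (v i).natAbs ≤ ∑ i, (v i).natAbs :=
      Finset.single_le_sum (f := fun i => (v i).natAbs) (fun _ _ => Nat.zero_le _) (mem_univ i)
    have h2 : ∑ i, (v i).natAbs ≤ ∑ v ∈ φ, ∑ i, (v i).natAbs :=
      Finset.single_le_sum (f := fun v : Fin n → ℤ => ∑ i, (v i).natAbs)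
        (fun _ _ => Nat.zero_le _) hv
    rw [Int.abs_eq_natAbs]
    exact_mod_cast h1.trans h2
  refine (Set.finite_Icc (fun _ => -((k : ℤ) * M) : Fin n → ℤ) (fun _ => (k : ℤ) * M)).subset ?_
  intro x hx
  obtain ⟨y, hy, hxy⟩ := Set.mem_smul_set.1 hx
  have hbox : y ∈ Set.Icc (fun _ => -(M : ℝ) : Fin n → ℝ) (fun _ => (M : ℝ)) := by
    refine convexHull_min ?_ (convex_Icc _ _) hy
    rintro _ ⟨v, hv, rfl⟩
    have h1 : ∀ i, -(M : ℝ) ≤ (v i : ℝ) ∧ (v i : ℝ) ≤ (M : ℝ) := by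
      intro i
      have := abs_le.1 (hM v hv i)
      constructor
      · exact_mod_cast this.1
      · exact_mod_cast this.2
    exact ⟨fun i => (h1 i).1, fun i => (h1 i).2⟩
  have hk : (0 : ℝ) ≤ k := Nat.cast_nonneg k
  have hxi : ∀ i, (x i : ℝ) = k * y i := fun i => by
    have := congrFun hxy i
    simp only [Pi.smul_apply, smul_eq_mul, toR_apply] at this
    exact this.symm
  refine ⟨fun i => ?_, fun i => ?_⟩
  · have h1 : -((k : ℝ) * M) ≤ (x i : ℝ) := by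
      rw [hxi]
      have := hbox.1 i
      nlinarith
    show -((k : ℤ) * M) ≤ x i
    exact_mod_cast h1
  · have h1 : (x i : ℝ) ≤ (k : ℝ) * M := by
      rw [hxi]
      have := hbox.2 i
      nlinarith
    show x i ≤ (k : ℤ) * M
    exact_mod_cast h1

/-- Independence modulo `e_K`. -/
theorem proj_indep {K : Finset (Fin n)} {Z ρ : Finset (Fin n → ℤ)} (hi : Indep ρ)
    (hρ : ρ ∩ Z = eK K) {a : (Fin n → ℤ) → ℝ}
    (ha : ∑ u ∈ ρ \ Z, a u • toR (pr K u) = 0) : ∀ u ∈ ρ \ Z, a u = 0 := by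
  classical
  let c : (Fin n → ℤ) → ℝ := fun v =>
    if v ∈ Z then -∑ u ∈ ρ \ Z, a u * (toR u ⬝ᵥ toR v) else a v
  have hinj : Set.InjOn (fun k : Fin n => (Pi.single k 1 : Fin n → ℤ)) (K : Set (Fin n)) := by
    intro k _ l _ h
    have h' : (Pi.single k 1 : Fin n → ℤ) k = (Pi.single l 1 : Fin n → ℤ) k := congrFun h k
    by_contra hne
    rw [Pi.single_eq_same, Pi.single_eq_of_ne hne] at h'
    exact one_ne_zero h'
  have hs : ∑ v ∈ ρ, c v • toR v = 0 := by
    rw [← Finset.sum_sdiff (Finset.inter_subset_left : ρ ∩ Z ⊆ ρ)]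
    have e1 : ρ \ (ρ ∩ Z) = ρ \ Z := by ext u; simp
    rw [e1]
    have e2 : ∑ v ∈ ρ \ Z, c v • toR v = ∑ v ∈ ρ \ Z, a v • toR v := by
      refine Finset.sum_congr rfl fun v hv => ?_
      have : v ∉ Z := (Finset.mem_sdiff.1 hv).2
      simp only [c, this, if_false]
    have e3 : ∑ v ∈ ρ ∩ Z, c v • toR v =
        ∑ k ∈ K, (-∑ u ∈ ρ \ Z, a u * (u k : ℝ)) • toR (Pi.single k 1 : Fin n → ℤ) := by
      have e4 : ∀ v ∈ ρ ∩ Z, c v • toR v = (-∑ u ∈ ρ \ Z, a u * (toR u ⬝ᵥ toR v)) • toR v := by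
        intro v hv
        have : v ∈ Z := (mem_inter.1 hv).2
        simp only [c, this, if_true]
      rw [Finset.sum_congr rfl e4, hρ, eK, Finset.sum_image hinj]
      refine Finset.sum_congr rfl fun k _ => ?_
      congr 2
      refine Finset.sum_congr rfl fun u _ => ?_
      rw [dot_toR]
      simp
    rw [e2, e3]
    funext i
    have hai := congrFun ha i
    simp only [Pi.add_apply, Finset.sum_apply, Pi.smul_apply, smul_eq_mul, Pi.zero_apply] at hai ⊢
    by_cases hiK : i ∈ K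
    · have h1 : ∑ k ∈ K, (-∑ u ∈ ρ \ Z, a u * (u k : ℝ)) * toR (Pi.single k 1 : Fin n → ℤ) i =
          -∑ u ∈ ρ \ Z, a u * (u i : ℝ) := by
        rw [Finset.sum_eq_single i]
        · simp
        · intro k _ hk
          rw [toR_apply, Pi.single_eq_of_ne (Ne.symm hk)]
          simp
        · intro h
          exact absurd hiK h
      rw [h1]
      simp
    · have h1 : ∑ k ∈ K, (-∑ u ∈ ρ \ Z, a u * (u k : ℝ)) * toR (Pi.single k 1 : Fin n → ℤ) i =
          0 := by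
        refine Finset.sum_eq_zero fun k hk => ?_
        have : i ≠ k := fun h => hiK (h ▸ hk)
        rw [toR_apply, Pi.single_eq_of_ne this]
        simp
      rw [h1, add_zero, ← hai]
      refine Finset.sum_congr rfl fun u _ => ?_
      rw [toR_pr_notMem u hiK, toR_apply]
  intro u hu
  have h1 := Indep.sum_eq_zero hi hs u (Finset.mem_sdiff.1 hu).1
  have : u ∉ Z := (Finset.mem_sdiff.1 hu).2
  simpa only [c, this, if_false] using h1

theorem pr_injOn {K : Finset (Fin n)} {Z ρ : Finset (Fin n → ℤ)} (hi : Indep ρ)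
    (hρ : ρ ∩ Z = eK K) : Set.InjOn (pr K) ((ρ \ Z : Finset (Fin n → ℤ)) : Set (Fin n → ℤ)) := by
  classical
  intro u hu v hv huv
  by_contra hne
  have hu' : u ∈ ρ \ Z := hu
  have hv' : v ∈ ρ \ Z := hv
  have h := proj_indep hi hρ (a := fun w => (if w = u then 1 else 0) - if w = v then 1 else 0) (by
    simp only [sub_smul, Finset.sum_sub_distrib, ite_smul, one_smul, zero_smul,
      Finset.sum_ite_eq', hu', hv', if_true]
    rw [huv, sub_self]) u hu'
  simp [hne] at h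

theorem proj_indep' {K : Finset (Fin n)} {Z ρ : Finset (Fin n → ℤ)} (hi : Indep ρ)
    (hρ : ρ ∩ Z = eK K) : Indep (projS K (ρ \ Z)) := by
  classical
  unfold Indep
  rw [Fintype.linearIndependent_iff]
  intro g hg
  let c : (Fin n → ℤ) → ℝ := fun v => if h : v ∈ projS K (ρ \ Z) then g ⟨v, h⟩ else 0
  have h1 : ∑ v ∈ projS K (ρ \ Z), c v • toR v = 0 := by
    rw [← Finset.sum_attach, ← hg]
    refine Finset.sum_congr rfl fun v _ => ?_
    simp only [c, v.2, dif_pos]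
  rw [projS_eq, Finset.sum_image (pr_injOn hi hρ)] at h1
  have h2 := proj_indep hi hρ (a := fun u => c (pr K u)) h1
  rintro ⟨v, hv⟩
  obtain ⟨u, hu, huv⟩ := Finset.mem_image.1 (projS_eq K (ρ \ Z) ▸ hv)
  have h3 := h2 u hu
  simp only [huv] at h3
  simpa only [c, hv, dif_pos] using h3

theorem proj_card {K : Finset (Fin n)} {Z ρ : Finset (Fin n → ℤ)} (hi : Indep ρ)
    (hρ : ρ ∩ Z = eK K) : (projS K (ρ \ Z)).card = (ρ \ Z).card := by
  rw [projS_eq, Finset.card_image_of_injOn (pr_injOn hi hρ)]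

theorem volZ_eq (h3 : IdxProj) {K : Finset (Fin n)} {Z ρ : Finset (Fin n → ℤ)}
    (hρ : ρ ∩ Z = eK K) : volZ Z ρ = vol (projS K (ρ \ Z)) := by
  classical
  unfold volZ vol
  have e1 : {x | x ∈ ρ ∧ x ∈ Z} = {x : Fin n → ℤ | ∃ k ∈ K, x = Pi.single k 1} := by
    ext x
    have : x ∈ ρ ∩ Z ↔ x ∈ eK K := by rw [hρ]
    rw [mem_inter, eK, Finset.mem_image] at this
    simp only [Set.mem_setOf_eq]
    rw [this]
    constructor
    · rintro ⟨k, hk, rfl⟩; exact ⟨k, hk, rfl⟩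
    · rintro ⟨k, hk, rfl⟩; exact ⟨k, hk, rfl⟩
  rw [e1, h3]
  congr 1
  ext x
  constructor
  · rintro ⟨_, ⟨u, hu, v, hv, rfl⟩, rfl⟩
    refine ⟨pr K u, Finset.mem_image_of_mem _ hu, pr K v, Finset.mem_image_of_mem _ hv, ?_⟩
    exact pr_sub K u v
  · rintro ⟨u', hu', v', hv', rfl⟩
    obtain ⟨u, hu, rfl⟩ := Finset.mem_image.1 hu'
    obtain ⟨v, hv, rfl⟩ := Finset.mem_image.1 hv'
    exact ⟨u - v, ⟨u, hu, v, hv, rfl⟩, pr_sub K u v⟩

open Classical in
/-- The count. -/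
theorem ehr_eq (h1 : CellDecomp) {A Z : Finset (Fin n → ℤ)} {b : Fin n → ℝ} {Φ : Fan n}
    (hT : Tri A Z Φ) (hB : BFan A Z b Φ) (hb : ∀ i, 0 < b i) {K : Finset (Fin n)}
    {φ : Finset (Fin n → ℤ)} (hφ : φ ∈ cellsS A K b) {k : ℕ} (hk : 1 ≤ k) :
    ehr (projS K φ) k =
      ∑ ρ ∈ Φ.faces.filter (fun ρ => ρ ∩ Z = eK K ∧ ρ \ Z ⊆ φ ∧ (ρ \ Z).Nonempty),
        Nat.card {x : Fin n → ℤ // InS (projS K (ρ \ Z)) k x} := by
  have hkR : (0 : ℝ) < k := by exact_mod_cast hk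
  have hfin := finite_hull (projS K φ) k
  set T := Φ.faces.filter (fun ρ => ρ ∩ Z = eK K ∧ ρ \ Z ⊆ φ ∧ (ρ \ Z).Nonempty) with hTdef
  have hmem : ∀ x : Fin n → ℤ,
      toR x ∈ (k : ℝ) • convexHull ℝ (toR '' (projS K φ : Set (Fin n → ℤ))) ↔
        ∃ ρ ∈ T, InS (projS K (ρ \ Z)) k x := by
    intro x
    rw [(h1 n A Z b Φ hT hB hb K φ hφ (toR x) k hkR).1]
    constructor
    · rintro ⟨ρ, hρ, h2, h3, c, hc, hx, hs⟩
      refine ⟨ρ, mem_filter.2 ⟨hρ, h2, h3, ?_⟩, c, hc, hx, hs⟩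
      by_contra hemp
      rw [Finset.not_nonempty_iff_eq_empty] at hemp
      rw [hemp] at hs
      simp [projS] at hs
      rw [← hs] at hkR
      exact lt_irrefl _ hkR
    · rintro ⟨ρ, hρ, c, hc, hx, hs⟩
      rw [hTdef, mem_filter] at hρ
      exact ⟨ρ, hρ.1, hρ.2.1, hρ.2.2.1, c, hc, hx, hs⟩
  have hfinρ : ∀ ρ ∈ T, {x : Fin n → ℤ | InS (projS K (ρ \ Z)) k x}.Finite := by
    intro ρ hρ
    refine hfin.subset ?_
    intro x hx
    exact (hmem x).2 ⟨ρ, hρ, hx⟩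
  have h2 : ehr (projS K φ) k = hfin.toFinset.card := by
    unfold ehr
    rw [← Set.ncard_eq_toFinset_card _ hfin]
    rfl
  have h3 : ∀ ρ (hρ : ρ ∈ T), Nat.card {x : Fin n → ℤ // InS (projS K (ρ \ Z)) k x} =
      (hfinρ ρ hρ).toFinset.card := by
    intro ρ hρ
    rw [← Set.ncard_eq_toFinset_card _ (hfinρ ρ hρ)]
    rfl
  rw [h2]
  have h4 : hfin.toFinset = T.attach.biUnion (fun ρ => (hfinρ ρ.1 ρ.2).toFinset) := by
    ext x
    simp only [Set.Finite.mem_toFinset, mem_biUnion, mem_attach, true_and, Subtype.exists]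
    constructor
    · intro hx
      obtain ⟨ρ, hρ, h⟩ := (hmem x).1 hx
      exact ⟨ρ, hρ, h⟩
    · rintro ⟨ρ, hρ, h⟩
      exact (hmem x).2 ⟨ρ, hρ, h⟩
  rw [h4, Finset.card_biUnion]
  · rw [← Finset.sum_attach T (fun ρ => Nat.card {x : Fin n → ℤ // InS (projS K (ρ \ Z)) k x})]
    exact Finset.sum_congr rfl fun ρ _ => (h3 ρ.1 ρ.2).symm
  · intro ρ _ ρ' _ hne
    simp only [Function.onFun]
    rw [Finset.disjoint_left]
    intro x hx hx'
    rw [Set.Finite.mem_toFinset] at hx hx'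
    apply hne
    apply Subtype.ext
    have f1 := mem_filter.1 ρ.2
    have f2 := mem_filter.1 ρ'.2
    obtain ⟨c, hc, hxc, _⟩ := hx
    obtain ⟨c', hc', hxc', _⟩ := hx'
    exact (h1 n A Z b Φ hT hB hb K φ hφ (toR x) k hkR).2 ρ.1 f1.1 ρ'.1 f2.1 f1.2.1 f2.2.1
      c c' hc hc' (hxc.symm.trans hxc')

end S4

open V2 S4 in
theorem cellVol (h1 : CellDecomp) (h2 : SimplexCount) (h3 : IdxProj) : CellVol := by
  classical
  intro n A Z b Φ hT hB hb K φ hφ
  set d := dimF (projS K φ) with hd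
  set T := Φ.faces.filter (fun ρ => ρ ∩ Z = eK K ∧ ρ \ Z ⊆ φ ∧ (ρ \ Z).Nonempty) with hTdef
  -- the limit of each term
  have hterm : ∀ ρ ∈ T, Tendsto (fun k : ℕ => (d.factorial : ℝ) *
      (Nat.card {x : Fin n → ℤ // InS (projS K (ρ \ Z)) k x} : ℝ) / (k : ℝ) ^ d) atTop
      (𝓝 (if (ρ \ Z).card = d + 1 then (volZ Z ρ : ℝ) else 0)) := by
    intro ρ hρ
    rw [hTdef, mem_filter, Fan.mem_faces] at hρ
    obtain ⟨hface, hK, hsub, hne⟩ := hρ
    have hρi := Fan.IsFace.indep Φ hface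
    have hind := proj_indep' hρi hK
    have hcard := proj_card hρi hK
    have hne' : (projS K (ρ \ Z)).Nonempty := hne.image _
    have hsub' : projS K (ρ \ Z) ⊆ projS K φ := Finset.image_subset_image hsub
    have hle := card_le_dim hsub' hind hne'
    rw [hcard, ← hd] at hle
    have hcnt := h2 n (projS K (ρ \ Z)) hne' hind
    rw [hcard, ← volZ_eq h3 hK] at hcnt
    have hpos : 1 ≤ (ρ \ Z).card := Finset.card_pos.2 hne
    split_ifs with hcd
    · have : (ρ \ Z).card - 1 = d := by omega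
      rw [this] at hcnt
      exact hcnt
    · have hlt : (ρ \ Z).card - 1 < d := by omega
      obtain ⟨e, he⟩ : ∃ e, e = (ρ \ Z).card - 1 := ⟨_, rfl⟩
      rw [← he] at hcnt hlt
      have hz : Tendsto (fun k : ℕ => ((d.factorial : ℝ) / (e.factorial : ℝ)) *
          (((e.factorial : ℝ) * (Nat.card {x : Fin n → ℤ // InS (projS K (ρ \ Z)) k x} : ℝ) /
            (k : ℝ) ^ e) * (1 / (k : ℝ) ^ (d - e)))) atTop
          (𝓝 (((d.factorial : ℝ) / (e.factorial : ℝ)) * ((volZ Z ρ : ℝ) * 0))) := by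
        refine Tendsto.const_mul _ (Tendsto.mul hcnt ?_)
        have h1 : Tendsto (fun k : ℕ => (k : ℝ) ^ (d - e)) atTop atTop := by
          have : d - e ≠ 0 := by omega
          exact (tendsto_pow_atTop this).comp tendsto_natCast_atTop_atTop
        have h2 := h1.inv_tendsto_atTop
        refine h2.congr fun k => ?_
        simp [Pi.inv_apply]
      rw [mul_zero, mul_zero] at hz
      refine hz.congr' ?_
      filter_upwards [eventually_ge_atTop 1] with k hk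
      have hkR : (k : ℝ) ≠ 0 := by positivity
      have hef : (e.factorial : ℝ) ≠ 0 := by positivity
      have hpow : (k : ℝ) ^ d = (k : ℝ) ^ e * (k : ℝ) ^ (d - e) := by
        rw [← pow_add]
        congr 1
        omega
      rw [hpow]
      field_simp
  have hsum := tendsto_finsetSum T hterm
  have hlim : Tendsto (fun k : ℕ => (d.factorial : ℝ) * (ehr (projS K φ) k : ℝ) / (k : ℝ) ^ d)
      atTop (𝓝 (∑ ρ ∈ T, if (ρ \ Z).card = d + 1 then (volZ Z ρ : ℝ) else 0)) := by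
    refine hsum.congr' ?_
    filter_upwards [eventually_ge_atTop 1] with k hk
    rw [S4.ehr_eq h1 hT hB hb hφ hk]
    push_cast
    rw [Finset.mul_sum, Finset.sum_div]
  have hval : (∑ ρ ∈ T, if (ρ \ Z).card = d + 1 then (volZ Z ρ : ℝ) else 0) =
      ((∑ ρ ∈ Φ.faces.filter (fun ρ => ρ ∩ Z = eK K ∧ ρ \ Z ⊆ φ ∧
        (ρ \ Z).card = dimF (projS K φ) + 1), (volZ Z ρ : ℤ) : ℤ) : ℝ) := by
    rw [← Finset.sum_filter]
    push_cast
    refine Finset.sum_congr ?_ (fun _ _ => rfl)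
    ext ρ
    simp only [hTdef, mem_filter]
    constructor
    · rintro ⟨⟨h1, h2, h3, h4⟩, h5⟩
      exact ⟨h1, h2, h3, h5⟩
    · rintro ⟨h1, h2, h3, h5⟩
      refine ⟨⟨h1, h2, h3, ?_⟩, h5⟩
      exact Finset.card_pos.1 (by omega)
  rw [hval] at hlim
  have hex : ∃ V : ℤ, Tendsto (fun k : ℕ => ((dimF (projS K φ)).factorial : ℝ) *
      ehr (projS K φ) k / (k : ℝ) ^ dimF (projS K φ)) atTop (𝓝 (V : ℝ)) := ⟨_, hlim⟩
  have h1 : nvol (projS K φ) = hex.choose := by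
    unfold nvol
    rw [dif_pos hex]
  rw [h1]
  have h2 := tendsto_nhds_unique hex.choose_spec hlim
  exact_mod_cast h2

end Mono
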